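import Pool.Agent.Lib.MP_da4765_co.StarLower

/-!
# The distinguishing index of the Mycielskian: the cube root bound

For every finite connected graph `G` with at least three vertices, the distinguishing index of
the Mycielskian is at most that of `G`.  If `G` has no twins it is at most every positive `k`
with `2 * D'(G) ≤ k ^ 2 * (k + 1)`.  In general, the sizes of the twin classes are the only
obstruction.
-/

namespace Pool.Agent.Results.MP_da4765_co.CubeRootBound

open Pool.Agent.Lib.MP_da4765_co

/-- Let `G` be a finite connected graph with at least three vertices.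

* `D'(μ(G))` is defined and `D'(μ(G)) ≤ D'(G)`.
* If `G` is twin-free, then `D'(μ(G)) ≤ k` for every `k ≥ 1` with `2 D'(G) ≤ k ^ 2 (k + 1)`.
* If `G` is not a star and has a distinguishing edge colouring that uses at most
  `k ^ 2 (k + 1) / 2` colours on the edges none of whose ends has a twin, at most `k ^ 2` colours
  on the edges with exactly one end that has a twin, and at most `k` colours on the edges both of
  whose ends have twins, then `D'(μ(G)) ≤ k` if and only if every twin class of vertices of
  degree `d` has at most `k ^ (d + 1)` elements.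
* If `G` is a star with `n` vertices, then `D'(μ(G)) ≤ k` if and only if `n ≤ k ^ 2`. -/
theorem result {V : Type*} [Fintype V] (G : SimpleGraph V) (hG : G.Connected)
    (hV : 3 ≤ Fintype.card V) :
    0 < distIndex (mycielskian G) ∧
    distIndex (mycielskian G) ≤ distIndex G ∧
    ∀ k : ℕ, 0 < k →
      ((∀ x y, Twin G x y → x = y) → 2 * distIndex G ≤ k ^ 2 * (k + 1) →
        distIndex (mycielskian G) ≤ k) ∧
      ((∀ z, ¬ IsStar G z) →
        (∃ (D : ℕ) (c : G.edgeSet → Fin D), IsDistinguishing G c ∧
          2 * paletteSize G c 0 ≤ k ^ 2 * (k + 1) ∧ paletteSize G c 1 ≤ k ^ 2 ∧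
          paletteSize G c 2 ≤ k) →
        (distIndex (mycielskian G) ≤ k ↔
          ∀ x, {y | Twin G x y}.ncard ≤ k ^ ((G.neighborSet x).ncard + 1))) ∧
      ((∃ z, IsStar G z) → (distIndex (mycielskian G) ≤ k ↔ Fintype.card V ≤ k ^ 2)) := by
  obtain ⟨h1, h2⟩ := distIndex_mycielskian_spec hG hV
  refine ⟨h1, distIndex_mycielskian_le hG hV, fun k hk => ⟨fun htf hkD =>
    distIndex_mycielskian_le_of_twinFree hG hV htf hk (Or.inl hkD), fun hstar hc => ?_,
    fun hstar => ?_⟩⟩
  · obtain ⟨D, c, hc, hc0, hc1, hc2⟩ := hc
    constructor
    · intro h x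
      exact ncard_twin_le hk (h2.mono h) x
    · intro hT
      exact distIndex_le hk
        (distIndex_mycielskian_le_of_palettes hV hstar hk c hc (Or.inl hc0) hc1 hc2 hT)
  · obtain ⟨z, hz⟩ := hstar
    constructor
    · intro h
      exact card_le_of_hasDist_star hk hz (h2.mono h)
    · intro h
      exact distIndex_le hk (hasDist_star hz hV h)

end Pool.Agent.Results.MP_da4765_co.CubeRootBound
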