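import Pool.Agent.Lib.MP_da4765_co.Sharp

/-!
# The distinguishing index of the Mycielskian: the exact threshold

If a twin-free connected graph with at least three vertices has a `k`-marking of its vertices
that no edge-reversing automorphism preserves (for instance, if it is `k`-colourable), then
`D'(G) ≤ k ^ 3` implies `D'(μ(G)) ≤ k`.  The threshold `k ^ 3` is best possible, already for
bipartite graphs.
-/

namespace Pool.Agent.Results.MP_da4765_co.CubeThreshold

open Pool.Agent.Lib.MP_da4765_co

/-- `G` has a marking of its vertices with `k` marks such that no automorphism of `G` which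
preserves the marks exchanges the two ends of an edge.  Every proper colouring with `k` colours
is such a marking. -/
def IsMarkable {V : Type*} (G : SimpleGraph V) (k : ℕ) : Prop :=
  ∃ m : V → Fin k, ∀ α : G ≃g G, (∀ x, m (α x) = m x) →
    ∀ x y, G.Adj x y → ¬ (α x = y ∧ α y = x)

/-- Let `k ≥ 2`.

* Every finite connected twin-free graph `G` with at least three vertices that is `k`-colourable,
  or more generally has a `k`-marking that no edge-reversing automorphism preserves, and has
  `D'(G) ≤ k ^ 3` satisfies `D'(μ(G)) ≤ k`.
* There is a finite connected twin-free bipartite graph `G` with at least three vertices,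
  `D'(G) = k ^ 3 + 1` and `D'(μ(G)) = k + 1`. -/
theorem result (k : ℕ) (hk : 2 ≤ k) :
    (∀ (V : Type) [Fintype V] (G : SimpleGraph V), G.Connected → 3 ≤ Fintype.card V →
      (∀ x y, Twin G x y → x = y) → (G.Colorable k ∨ IsMarkable G k) →
      distIndex G ≤ k ^ 3 → distIndex (mycielskian G) ≤ k) ∧
    (∃ (V : Type) (_ : Fintype V) (G : SimpleGraph V), G.Connected ∧ 3 ≤ Fintype.card V ∧
      (∀ x y, Twin G x y → x = y) ∧ G.Colorable 2 ∧
      distIndex G = k ^ 3 + 1 ∧ distIndex (mycielskian G) = k + 1) := by
  constructor
  · intro V _ G hG hV htf hm hD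
    refine distIndex_mycielskian_le_of_twinFree hG hV htf (by omega) (Or.inr ⟨?_, hD⟩)
    rcases hm with hm | ⟨m, hm⟩
    · exact hasMarking_of_colorable hm
    · refine ⟨m, fun α hα x y hxy _ _ => hm α (fun z => hα z ?_) x y hxy⟩
      rintro ⟨t, ht, hzt⟩
      exact ht (htf z t hzt).symm
  · obtain ⟨V, hVf, G, hG, hV, hcol, htf, h1, h2⟩ := exists_windmill hk
    exact ⟨V, hVf, G, hG, hV, htf, hcol, h1, h2⟩

end Pool.Agent.Results.MP_da4765_co.CubeThreshold
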